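import Mathlib

set_option autoImplicit false

/-!
Two small lemmas for the one-tape lower bound: the rank of the blockwise
list non-equality matrix, and a counting lemma.
-/

namespace Pool.Agent.Helper31.OneTape

open Finset

lemma factor_mul {α : Type} [Fintype α] [DecidableEq α] (h : 2 ≤ Fintype.card α) (x z : α) :
    ∑ y : α, ((if x = y then (0 : ℚ) else 1) *
      (1 / ((Fintype.card α : ℚ) - 1) - if y = z then 1 else 0)) = if x = z then 1 else 0 := by
  have hc : (1 : ℚ) < (Fintype.card α : ℚ) := by exact_mod_cast h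
  have hne : (Fintype.card α : ℚ) - 1 ≠ 0 := by linarith
  have e : ∀ y : α, ((if x = y then (0 : ℚ) else 1) *
      (1 / ((Fintype.card α : ℚ) - 1) - if y = z then 1 else 0))
      = 1 / ((Fintype.card α : ℚ) - 1) - (if x = y then 1 / ((Fintype.card α : ℚ) - 1) else 0)
        - (if y = z then (if x = z then 0 else 1) else 0) := by
    intro y
    by_cases h1 : x = y <;> by_cases h2 : y = z
    · subst h1; simp [h2]
    · subst h1; simp [h2]
    · subst h2; simp [h1]
    · simp [h1, h2]
  simp only [e, Finset.sum_sub_distrib, Finset.sum_const, Finset.card_univ, nsmul_eq_mul,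
    Finset.sum_ite_eq, Finset.sum_ite_eq', Finset.mem_univ, if_true]
  by_cases h3 : x = z
  · simp only [h3, if_true]
    field_simp
    ring
  · simp only [h3, if_false]
    field_simp
    ring

theorem rank_lne (r : ℕ) :
    (Matrix.of fun (x y : (i : Fin r) → Fin (i.1 + 1) → Bool) =>
      if ∀ i, x i ≠ y i then (1 : ℚ) else 0).rank = 2 ^ (r * (r + 1) / 2) := by
  set M : Matrix ((i : Fin r) → Fin (i.1 + 1) → Bool) ((i : Fin r) → Fin (i.1 + 1) → Bool) ℚ :=
    Matrix.of fun x y => if ∀ i, x i ≠ y i then (1 : ℚ) else 0 with hM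
  let M' : Matrix ((i : Fin r) → Fin (i.1 + 1) → Bool) ((i : Fin r) → Fin (i.1 + 1) → Bool) ℚ :=
    Matrix.of fun x y => ∏ i, (1 / ((Fintype.card (Fin (i.1 + 1) → Bool) : ℚ) - 1) -
      if x i = y i then 1 else 0)
  have hcard : ∀ i : Fin r, 2 ≤ Fintype.card (Fin (i.1 + 1) → Bool) := by
    intro i
    rw [Fintype.card_fun, Fintype.card_bool, Fintype.card_fin]
    calc 2 = 2 ^ 1 := rfl
      _ ≤ 2 ^ (i.1 + 1) := Nat.pow_le_pow_right (by norm_num) (by omega)
  have hMe : ∀ x y, M x y = ∏ i, (if x i = y i then (0 : ℚ) else 1) := by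
    intro x y
    rw [hM, Matrix.of_apply]
    by_cases h : ∀ i, x i ≠ y i
    · rw [if_pos h, Finset.prod_eq_one]
      intro i _
      rw [if_neg (h i)]
    · rw [if_neg h]
      push Not at h
      obtain ⟨i, hi⟩ := h
      rw [Finset.prod_eq_zero (Finset.mem_univ i)]
      rw [if_pos hi]
  have hmul : M * M' = 1 := by
    ext x z
    rw [Matrix.mul_apply]
    have e1 : ∀ y, M x y * M' y z = ∏ i, ((if x i = y i then (0 : ℚ) else 1) *
        (1 / ((Fintype.card (Fin (i.1 + 1) → Bool) : ℚ) - 1) - if y i = z i then 1 else 0)) := by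
      intro y
      rw [hMe, Finset.prod_mul_distrib]
      rfl
    simp only [e1]
    have e2 := Finset.prod_univ_sum
      (t := fun i : Fin r => (Finset.univ : Finset (Fin (i.1 + 1) → Bool)))
      (f := fun i b => (if x i = b then (0 : ℚ) else 1) *
        (1 / ((Fintype.card (Fin (i.1 + 1) → Bool) : ℚ) - 1) - if b = z i then 1 else 0))
    rw [Fintype.piFinset_univ] at e2
    rw [← e2]
    simp only [factor_mul (hcard _)]
    rw [Matrix.one_apply]
    by_cases h : x = z
    · subst h
      simp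
    · rw [if_neg h]
      obtain ⟨i, hi⟩ := Function.ne_iff.mp h
      rw [Finset.prod_eq_zero (Finset.mem_univ i)]
      rw [if_neg hi]
  have hu : IsUnit M := by
    rw [Matrix.isUnit_iff_isUnit_det]
    exact Matrix.isUnit_det_of_right_inverse hmul
  rw [Matrix.rank_of_isUnit M hu]
  rw [Fintype.card_pi]
  have e3 : ∀ i : Fin r, Fintype.card (Fin (i.1 + 1) → Bool) = 2 ^ (i.1 + 1) := by
    intro i
    rw [Fintype.card_fun, Fintype.card_bool, Fintype.card_fin]
  simp only [e3]
  rw [Finset.prod_pow_eq_pow_sum]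
  congr 1
  rw [Fin.sum_univ_eq_sum_range (fun i => i + 1) r]
  have h2 : ∑ i ∈ Finset.range r, (i + 1) = ∑ i ∈ Finset.range (r + 1), i := by
    rw [Finset.sum_range_succ']
    simp
  rw [h2, Finset.sum_range_id]
  simp [Nat.mul_comm]

theorem card_le_of_inj_off {ι : Type} [Fintype ι] [DecidableEq ι] (J : Finset ι)
    (A : Set (ι → Bool))
    (h : ∀ ω ∈ A, ∀ ω' ∈ A, (∀ i, i ∉ J → ω i = ω' i) → ω = ω') :
    Nat.card A * 2 ^ J.card ≤ 2 ^ Fintype.card ι := by
  have h1 : Nat.card A ≤ Nat.card ({i // i ∉ J} → Bool) := by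
    refine Nat.card_le_card_of_injective (fun ω : A => fun i : {i // i ∉ J} => ω.1 i.1) ?_
    intro ω ω' hω
    apply Subtype.ext
    refine h ω.1 ω.2 ω'.1 ω'.2 ?_
    intro i hi
    exact congrFun hω ⟨i, hi⟩
  have h2 : Nat.card ({i // i ∉ J} → Bool) = 2 ^ (Fintype.card ι - J.card) := by
    rw [Nat.card_eq_fintype_card, Fintype.card_fun, Fintype.card_bool]
    congr 1
    rw [Fintype.card_subtype_compl (fun i => i ∈ J)]
    congr 1
    simp
  calc Nat.card A * 2 ^ J.card ≤ 2 ^ (Fintype.card ι - J.card) * 2 ^ J.card := by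
        rw [← h2]; exact Nat.mul_le_mul_right _ h1
    _ = 2 ^ Fintype.card ι := by
        rw [← pow_add]
        congr 1
        have := Finset.card_le_univ J
        omega

end Pool.Agent.Helper31.OneTape
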